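import Mathlib
import Pool.Agent.R91.GDB.Final

/-!
# Balanced generalized de Bruijn sequences over alphabets of size at least three

For every finite alphabet `A` with at least three letters and all positive `n, l, k`, an
`A`-balanced generalized de Bruijn sequence with parameters `(n, l, k)` exists if and only if
`|A|` divides `n` and `n ≤ k |A|^l`.
-/

namespace Pool.Agent.Results.MP_a9eae2_co.BalancedDeBruijn

/-- number of starting positions `i` (mod `n`) at which the word `w` of length `l` occurs in the
cyclic sequence `a` of length `n` (indices are read modulo `n`) -/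
def occ {A : Type} [DecidableEq A] {n : ℕ} [NeZero n] (a : ZMod n → A) {l : ℕ} (w : Fin l → A) :
    ℕ :=
  (Finset.univ.filter (fun i : ZMod n => ∀ j : Fin l, a (i + ((j : ℕ) : ZMod n)) = w j)).card

/-- `a` is a generalized de Bruijn sequence with parameters `(n, l, k)`: every word of length `l`
occurs at no more than `k` starting positions -/
def IsGDB {A : Type} [DecidableEq A] {n : ℕ} [NeZero n] (a : ZMod n → A) (l k : ℕ) : Prop :=
  ∀ w : Fin l → A, occ a w ≤ k

/-- every letter of the alphabet occurs equally often, i.e. exactly `n / |A|` times -/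
def IsBalanced {A : Type} [Fintype A] [DecidableEq A] {n : ℕ} [NeZero n] (a : ZMod n → A) : Prop :=
  ∀ c : A, Fintype.card A * (Finset.univ.filter (fun i : ZMod n => a i = c)).card = n

theorem result (A : Type) [Fintype A] [DecidableEq A] (hA : 3 ≤ Fintype.card A)
    (n l k : ℕ) [NeZero n] (hl : 0 < l) (_hk : 0 < k) :
    (∃ a : ZMod n → A, IsBalanced a ∧ IsGDB a l k) ↔
      (Fintype.card A ∣ n ∧ n ≤ k * Fintype.card A ^ l) := by
  constructor
  · rintro ⟨a, hb, hg⟩
    have hne : Nonempty A := Fintype.card_pos_iff.mp (by omega)
    obtain ⟨c⟩ := hne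
    refine ⟨⟨_, (hb c).symm⟩, ?_⟩
    have h1 : n = ∑ w : Fin l → A, occ a w := by
      have h2 := Finset.card_eq_sum_card_fiberwise (s := (Finset.univ : Finset (ZMod n)))
        (t := (Finset.univ : Finset (Fin l → A)))
        (f := fun i => fun j : Fin l => a (i + ((j : ℕ) : ZMod n)))
        (fun _ _ => Finset.mem_coe.mpr (Finset.mem_univ _))
      rw [Finset.card_univ, ZMod.card] at h2
      refine h2.trans ?_
      apply Finset.sum_congr rfl
      intro w _
      unfold occ
      congr 1
      apply Finset.filter_congr
      intro i _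
      exact funext_iff
    calc n = ∑ w : Fin l → A, occ a w := h1
      _ ≤ ∑ _w : Fin l → A, k := Finset.sum_le_sum (fun w _ => hg w)
      _ = k * Fintype.card A ^ l := by
          rw [Finset.sum_const, Finset.card_univ, Fintype.card_fun, Fintype.card_fin,
            smul_eq_mul, mul_comm]
  · rintro ⟨hdiv, hle⟩
    obtain ⟨m, hm⟩ : ∃ m, Fintype.card A = m := ⟨_, rfl⟩
    rw [hm] at hA hdiv hle
    have hmne : NeZero m := ⟨by omega⟩
    have e : ZMod m ≃ A := Fintype.equivOfCardEq (by rw [ZMod.card, hm])
    obtain ⟨L, rfl⟩ : ∃ L, l = L + 1 := ⟨l - 1, by omega⟩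
    obtain ⟨a, ha1, ha2⟩ := R91.GDB.exG hA L n k hdiv hle
    refine ⟨fun i => e (a i), ?_, ?_⟩
    · intro c
      have h1 := ha1 (e.symm c)
      rw [hm]
      have h2 : (Finset.univ.filter (fun i : ZMod n => e (a i) = c))
          = (Finset.univ.filter (fun i : ZMod n => a i = e.symm c)) := by
        apply Finset.filter_congr
        intro i _
        exact (Equiv.eq_symm_apply e).symm
      rw [h2, h1]
    · intro w
      have h1 := ha2 (fun j => e.symm (w j))
      refine le_trans (le_of_eq ?_) h1
      unfold occ R91.GDB.oc
      congr 1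
      apply Finset.filter_congr
      intro i _
      constructor
      · intro h j
        exact (Equiv.eq_symm_apply e).mpr (h j)
      · intro h j
        exact (Equiv.eq_symm_apply e).mp (h j)

end Pool.Agent.Results.MP_a9eae2_co.BalancedDeBruijn
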